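import Mathlib
import Pool.Agent.R283.KPMore

/-!
# Compatible pairs on the Kalton–Peck space with noncompact difference (MP_23ded2_an)

Outline.  The Kalton–Peck space is realised as the space of the pairs `(v, x)` with `x ∈ ℓ²` and `v`
a real sequence such that `v - K x ∈ ℓ²`.  Let `P` be the projection onto the even coordinates and `b`
the unitary operator exchanging the coordinates `2n` and `2n+1`.  As `K P - P K` is bounded,
`(v, x) ↦ (P v, P x)` is a bounded operator on `Z₂`.  With the standard inclusion `j` and the quotient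
map `b ∘ q` in place of `q` it induces `T = P` on the subspace and `U = b P b = I - P` on the
quotient, and `T - U = 2 P - I` is not compact.
-/

set_option autoImplicit false
open Filter Topology
open scoped ENNReal

namespace Pool.Agent.Results.MP_23ded2_an.NoncompactDifference

/-- The real Hilbert space `ℓ²`. -/
abbrev L2 := lp (fun _ : ℕ => ℝ) 2

/-- The `ℓ²` norm of a real sequence. -/
noncomputable def l2norm (f : ℕ → ℝ) : ℝ := Real.sqrt (∑' n, f n ^ 2)

/-- The Kalton–Peck map: the sequence with entries `x n * log (|x n| / ‖x‖)`. -/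
noncomputable def kpMap (x : ℕ → ℝ) : ℕ → ℝ := fun n => x n * Real.log (|x n| / l2norm x)

/-- The pairs of finitely supported real sequences. -/
abbrev Pairs := (ℕ →₀ ℝ) × (ℕ →₀ ℝ)

/-- The quasi-norm `‖(y, x)‖ = ‖y - K x‖ + ‖x‖` for pairs of finitely supported sequences. -/
noncomputable def kpNorm (p : Pairs) : ℝ :=
  l2norm (fun n => p.1 n - kpMap p.2 n) + l2norm p.2

section defs

variable {Z H : Type} [AddCommGroup Z] [Module ℝ Z] [NormedAddCommGroup H] [InnerProductSpace ℝ H]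

/-- `N` is a quasi-norm. -/
def IsQuasiNorm (N : Z → ℝ) : Prop :=
  (∀ z, 0 ≤ N z) ∧ (∀ z, N z = 0 → z = 0) ∧ (∀ (c : ℝ) (z : Z), N (c • z) = |c| * N z) ∧
    ∃ C : ℝ, ∀ z w, N (z + w) ≤ C * (N z + N w)

/-- The linear map `i` has dense range with respect to `N`. -/
def HasDenseRange (N : Z → ℝ) (i : Pairs →ₗ[ℝ] Z) : Prop :=
  ∀ z, ∀ ε : ℝ, 0 < ε → ∃ p, N (z - i p) < ε

/-- `Z` is complete with respect to `N`: every Cauchy sequence converges. -/
def IsCompleteFor (N : Z → ℝ) : Prop :=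
  ∀ s : ℕ → Z, (∀ ε : ℝ, 0 < ε → ∃ M, ∀ m, M ≤ m → ∀ n, M ≤ n → N (s m - s n) < ε) →
    ∃ z, ∀ ε : ℝ, 0 < ε → ∃ M, ∀ n, M ≤ n → N (s n - z) < ε

/-- `(Z, N)` together with the linear map `i` is a completion of the space of pairs of finitely
supported sequences with the quasi-norm `kpNorm`: `N` is a quasi-norm on `Z`, `i` is isometric and
has dense range, and `Z` is complete. -/
structure IsKaltonPeckSpace (N : Z → ℝ) (i : Pairs →ₗ[ℝ] Z) : Prop where
  quasiNorm : IsQuasiNorm N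
  isometric : ∀ p, N (i p) = kpNorm p
  dense : HasDenseRange N i
  complete : IsCompleteFor N

/-- The map `f` is bounded: `‖f a‖ ≤ C ‖a‖` for the given (quasi-)norms. -/
def IsBounded {A B : Type} (NA : A → ℝ) (NB : B → ℝ) (f : A → B) : Prop :=
  ∃ C : ℝ, ∀ a, NB (f a) ≤ C * NA a

/-- `0 → H → Z → H → 0` is exact: `j` is an isomorphic embedding, `q` is a bounded linear
surjection, and the kernel of `q` is the range of `j`. -/
structure IsExactSequence (N : Z → ℝ) (j : H →ₗ[ℝ] Z) (q : Z →ₗ[ℝ] H) : Prop where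
  j_bounded : IsBounded norm N j
  j_below : ∃ C : ℝ, ∀ h, ‖h‖ ≤ C * N (j h)
  q_bounded : IsBounded N norm q
  q_surjective : Function.Surjective q
  exact : ∀ z, q z = 0 ↔ ∃ h, j h = z

/-- The pair `(T, U)` is compatible with the sequence: there is a bounded linear `t : Z → Z` with
`t ∘ j = j ∘ T` and `q ∘ t = U ∘ q`. -/
def IsCompatible (N : Z → ℝ) (j : H →ₗ[ℝ] Z) (q : Z →ₗ[ℝ] H) (T U : H →L[ℝ] H) : Prop :=
  ∃ t : Z →ₗ[ℝ] Z, IsBounded N N t ∧ (∀ h, t (j h) = j (T h)) ∧ ∀ z, q (t z) = U (q z)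

variable (H) in
/-- Some exact sequence `0 → H → Z → H → 0` has a compatible pair `(T, U)` for which `T - U` is not
compact. -/
def HasNoncompactPair (N : Z → ℝ) : Prop :=
  ∃ (j : H →ₗ[ℝ] Z) (q : Z →ₗ[ℝ] H) (T U : H →L[ℝ] H),
    IsExactSequence N j q ∧ IsCompatible N j q T U ∧ ¬ IsCompactOperator (T - U)

end defs

open Pool.Agent.R283.KP in
section

lemma l2norm_coe (u : L2) : l2norm u = ‖u‖ := by
  rw [l2norm, ← norm_sq, Real.sqrt_sq (norm_nonneg _)]

lemma l2norm_eq {f : ℕ → ℝ} {u : L2} (h : ∀ n, u n = f n) : l2norm f = ‖u‖ := by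
  rw [← l2norm_coe]
  congr 1
  funext n
  exact (h n).symm

lemma l2norm_le {f : ℕ → ℝ} {r : ℝ} (h : Bd r f) : l2norm f ≤ r := by
  obtain ⟨u, hu, hur⟩ := h
  rwa [l2norm_eq hu]

lemma l2norm_nonneg (f : ℕ → ℝ) : 0 ≤ l2norm f := Real.sqrt_nonneg _

lemma kpMap_coe (x : L2) : kpMap x = kp x := by
  funext n
  rw [kpMap, l2norm_coe]
  rfl

/-- `(v, x)` belongs to the space if `v - K x` is square summable. -/
def ZZ : Submodule ℝ ((ℕ → ℝ) × L2) where
  carrier := {z | ∃ u : L2, ∀ n, u n = z.1 n - kp z.2 n}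
  add_mem' {z w} := by
    rintro ⟨u, hu⟩ ⟨u', hu'⟩
    obtain ⟨d, hd, _⟩ := kp_quasi z.2 w.2
    refine ⟨u + u' - d, fun n => ?_⟩
    rw [lp.coeFn_sub, Pi.sub_apply, lp.coeFn_add, Pi.add_apply, hu, hu', hd]
    show z.1 n - kp z.2 n + (w.1 n - kp w.2 n) - (kp (z.2 + w.2) n - kp z.2 n - kp w.2 n) =
      (z.1 n + w.1 n) - kp (z.2 + w.2) n
    ring
  zero_mem' := ⟨0, fun n => by
    show (0 : ℝ) = 0 - kp 0 n
    rw [kp_zero]; simp⟩
  smul_mem' c z := by
    rintro ⟨u, hu⟩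
    refine ⟨c • u, fun n => ?_⟩
    rw [lp.coeFn_smul, Pi.smul_apply, hu]
    show c * (z.1 n - kp z.2 n) = c * z.1 n - kp (c • z.2) n
    rw [kp_smul, Pi.smul_apply, smul_eq_mul, mul_sub]

/-- the difference `v - K x` as an element of `ℓ²` -/
noncomputable def dif (z : ZZ) : L2 := Classical.choose z.2

lemma dif_apply (z : ZZ) (n : ℕ) : dif z n = z.1.1 n - kp z.1.2 n := Classical.choose_spec z.2 n

/-- the quasi-norm -/
noncomputable def NN (z : ZZ) : ℝ := ‖dif z‖ + ‖z.1.2‖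

lemma NN_le {z : ZZ} {r : ℝ} (h : Bd r fun n => z.1.1 n - kp z.1.2 n) : NN z ≤ r + ‖z.1.2‖ := by
  obtain ⟨u, hu, hur⟩ := h
  have : dif z = u := by
    ext n
    rw [dif_apply, hu]
  rw [NN, this]
  linarith

lemma dif_eq {z : ZZ} {u : L2} (h : ∀ n, u n = z.1.1 n - kp z.1.2 n) : dif z = u := by
  ext n
  rw [dif_apply, h]

lemma NN_eq (z : ZZ) : NN z = l2norm (fun n => z.1.1 n - kpMap z.1.2 n) + l2norm z.1.2 := by
  rw [l2norm_eq (u := dif z) (fun n => by rw [dif_apply, kpMap_coe]), l2norm_coe, NN]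

lemma NN_quasi (z w : ZZ) : NN (z + w) ≤ 7 * (NN z + NN w) := by
  have h1 : Bd (‖dif z‖ + ‖dif w‖ + 6 * (‖z.1.2‖ + ‖w.1.2‖))
      fun n => (z + w).1.1 n - kp (z + w).1.2 n := by
    have h2 : (fun n => (z + w).1.1 n - kp (z + w).1.2 n) =
        ⇑(dif z) + ⇑(dif w) - (kp (z.1.2 + w.1.2) - kp z.1.2 - kp w.1.2) := by
      funext n
      simp only [Pi.add_apply, Pi.sub_apply, dif_apply]
      show (z.1.1 n + w.1.1 n) - kp (z.1.2 + w.1.2) n = _
      ring
    rw [h2]
    exact (Bd.add ⟨dif z, fun _ => rfl, le_rfl⟩ ⟨dif w, fun _ => rfl, le_rfl⟩).sub (kp_quasi _ _)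
  have h3 := NN_le h1
  have h4 : ‖(z + w).1.2‖ ≤ ‖z.1.2‖ + ‖w.1.2‖ := norm_add_le _ _
  unfold NN at h3 ⊢
  linarith [norm_nonneg (dif z), norm_nonneg (dif w), norm_nonneg z.1.2, norm_nonneg w.1.2]

lemma NN_nonneg (z : ZZ) : 0 ≤ NN z := add_nonneg (norm_nonneg _) (norm_nonneg _)

lemma NN_definite (z : ZZ) (h : NN z = 0) : z = 0 := by
  have h1 : dif z = 0 := norm_le_zero_iff.1 (by unfold NN at h; linarith [norm_nonneg z.1.2])
  have h2 : z.1.2 = 0 := norm_le_zero_iff.1 (by unfold NN at h; linarith [norm_nonneg (dif z)])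
  apply Subtype.ext
  refine Prod.ext ?_ h2
  funext n
  have h3 := dif_apply z n
  rw [h1, h2, kp_zero] at h3
  simpa using h3.symm

lemma NN_smul (c : ℝ) (z : ZZ) : NN (c • z) = |c| * NN z := by
  have h1 : dif (c • z) = c • dif z := by
    refine dif_eq fun n => ?_
    rw [lp.coeFn_smul, Pi.smul_apply, dif_apply]
    show c * (z.1.1 n - kp z.1.2 n) = c * z.1.1 n - kp (c • z.1.2) n
    rw [kp_smul, Pi.smul_apply, smul_eq_mul, mul_sub]
  unfold NN
  rw [h1, norm_smul, Real.norm_eq_abs]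
  have h2 : ‖(c • z).1.2‖ = |c| * ‖z.1.2‖ := by
    show ‖c • z.1.2‖ = _
    rw [norm_smul, Real.norm_eq_abs]
  rw [h2, mul_add]

/-- finitely supported sequences in `ℓ²` -/
noncomputable def fs : (ℕ →₀ ℝ) →ₗ[ℝ] L2 where
  toFun f := ⟨fun n => f n, by
    refine memℓp_gen ?_
    refine summable_of_ne_finset_zero (s := f.support) fun n hn => ?_
    rw [Finsupp.notMem_support_iff.1 hn, norm_zero]
    exact Real.zero_rpow (by norm_num)⟩
  map_add' f g := by ext n; rfl
  map_smul' c f := by ext n; rfl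

lemma fs_apply (f : ℕ →₀ ℝ) (n : ℕ) : fs f n = f n := rfl

lemma kp_fs (f : ℕ →₀ ℝ) {n : ℕ} (hn : n ∉ f.support) : kp (fs f) n = 0 := by
  unfold kp
  rw [fs_apply, Finsupp.notMem_support_iff.1 hn, zero_mul]

/-- the inclusion of the pairs of finitely supported sequences -/
noncomputable def ii : (ℕ →₀ ℝ) × (ℕ →₀ ℝ) →ₗ[ℝ] ZZ where
  toFun p := ⟨(p.1, fs p.2), by
    have hm : Memℓp (fun n => p.1 n - kp (fs p.2) n) 2 := by
      refine memℓp_gen ?_
      refine summable_of_ne_finset_zero (s := p.1.support ∪ p.2.support) fun n hn => ?_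
      rw [Finset.mem_union, not_or] at hn
      rw [Finsupp.notMem_support_iff.1 hn.1, kp_fs _ hn.2, sub_zero, norm_zero]
      exact Real.zero_rpow (by norm_num)
    exact ⟨⟨_, hm⟩, fun n => rfl⟩⟩
  map_add' p p' := by
    apply Subtype.ext
    refine Prod.ext ?_ ?_
    · funext n; rfl
    · show fs (p.2 + p'.2) = fs p.2 + fs p'.2
      rw [map_add]
  map_smul' c p := by
    apply Subtype.ext
    refine Prod.ext ?_ ?_
    · funext n; rfl
    · show fs (c • p.2) = c • fs p.2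
      rw [map_smul]

lemma NN_ii (p : (ℕ →₀ ℝ) × (ℕ →₀ ℝ)) : NN (ii p) = kpNorm p := by
  rw [NN_eq]
  rfl

lemma NN_dense (z : ZZ) (ε : ℝ) (hε : 0 < ε) : ∃ p, NN (z - ii p) < ε := by
  have hlim : Tendsto (fun m => ‖Tl m (dif z)‖ +
      |‖Tl m z.1.2‖ * Real.log (‖Tl m z.1.2‖ / ‖z.1.2‖)| + ‖Tl m z.1.2‖) atTop (𝓝 0) := by
    have h1 := ((Tl_tendsto (dif z)).norm.add (Tl_log_tendsto z.1.2)).add (Tl_tendsto z.1.2).norm
    simpa using h1
  obtain ⟨m, hm⟩ := (hlim.eventually (gt_mem_nhds hε)).exists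
  let f : ℕ →₀ ℝ := Finsupp.onFinset (Finset.range m) (fun n => if n < m then z.1.1 n else 0)
    (fun n hn => by
      by_contra hcon
      rw [Finset.mem_range] at hcon
      exact hn (if_neg hcon))
  let g : ℕ →₀ ℝ := Finsupp.onFinset (Finset.range m) (fun n => if n < m then z.1.2 n else 0)
    (fun n hn => by
      by_contra hcon
      rw [Finset.mem_range] at hcon
      exact hn (if_neg hcon))
  refine ⟨(f, g), lt_of_le_of_lt ?_ hm⟩
  have hx : (z - ii (f, g)).1.2 = Tl m z.1.2 := by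
    ext n
    show z.1.2 n - (if n < m then z.1.2 n else 0) = if m ≤ n then z.1.2 n else 0
    by_cases h : m ≤ n
    · rw [if_pos h, if_neg (by omega), sub_zero]
    · rw [if_neg h, if_pos (by omega), sub_self]
  have hb : Bd (‖Tl m (dif z)‖ + |‖Tl m z.1.2‖ * Real.log (‖Tl m z.1.2‖ / ‖z.1.2‖)|)
      fun n => (z - ii (f, g)).1.1 n - kp (z - ii (f, g)).1.2 n := by
    have h2 : (fun n => (z - ii (f, g)).1.1 n - kp (z - ii (f, g)).1.2 n) =
        ⇑(Tl m (dif z)) - (kp (Tl m z.1.2) - fun n => if n ∈ {n | m ≤ n} then kp z.1.2 n else 0) := by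
      funext n
      rw [hx]
      simp only [Pi.sub_apply]
      rw [Tl_apply, dif_apply]
      show (z.1.1 n - if n < m then z.1.1 n else 0) - kp (Tl m z.1.2) n =
        (if m ≤ n then z.1.1 n - kp z.1.2 n else 0) -
          (kp (Tl m z.1.2) n - if m ≤ n then kp z.1.2 n else 0)
      by_cases h : m ≤ n
      · rw [if_pos h, if_pos h, if_neg (by omega)]; ring
      · rw [if_neg h, if_neg h, if_pos (by omega)]; ring
    rw [h2]
    exact Bd.sub ⟨_, fun _ => rfl, le_rfl⟩ (kp_PA' _ _)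
  have h3 := NN_le hb
  rw [hx] at h3
  exact h3

lemma abs_sub_le_NN (z w : ZZ) (n : ℕ) : |z.1.1 n - w.1.1 n| ≤ NN (z - w) := by
  have h1 := dif_apply (z - w) n
  have h2 : z.1.1 n - w.1.1 n = dif (z - w) n + kp (z - w).1.2 n := by
    rw [h1]
    show z.1.1 n - w.1.1 n = (z.1.1 n - w.1.1 n) - kp (z - w).1.2 n + kp (z - w).1.2 n
    ring
  rw [h2]
  exact (abs_add_le _ _).trans (add_le_add (coord_le _ n) (kp_le _ n))

lemma NN_complete (s : ℕ → ZZ)
    (hs : ∀ ε : ℝ, 0 < ε → ∃ M, ∀ m, M ≤ m → ∀ n, M ≤ n → NN (s m - s n) < ε) :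
    ∃ z, ∀ ε : ℝ, 0 < ε → ∃ M, ∀ n, M ≤ n → NN (s n - z) < ε := by
  have hx : CauchySeq fun k => (s k).1.2 := by
    rw [Metric.cauchySeq_iff]
    intro ε hε
    obtain ⟨M, hM⟩ := hs ε hε
    refine ⟨M, fun m hm n hn => ?_⟩
    rw [dist_eq_norm]
    refine lt_of_le_of_lt ?_ (hM m hm n hn)
    exact le_add_of_nonneg_left (norm_nonneg (dif (s m - s n)))
  obtain ⟨x, hx⟩ := cauchySeq_tendsto_of_complete hx
  have hv : ∀ n, CauchySeq fun k => (s k).1.1 n := by
    intro i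
    rw [Metric.cauchySeq_iff]
    intro ε hε
    obtain ⟨M, hM⟩ := hs ε hε
    refine ⟨M, fun m hm n hn => ?_⟩
    rw [Real.dist_eq]
    exact lt_of_le_of_lt (abs_sub_le_NN _ _ _) (hM m hm n hn)
  choose v hv using fun n => cauchySeq_tendsto_of_complete (hv n)
  have key : ∀ ε : ℝ, 0 < ε → ∃ M, ∀ k, M ≤ k →
      Bd ε (fun n => ((s k).1.1 n - v n) - kp ((s k).1.2 - x) n) ∧ ‖(s k).1.2 - x‖ ≤ ε := by
    intro ε hε
    obtain ⟨M, hM⟩ := hs ε hε
    refine ⟨M, fun k hk => ⟨?_, ?_⟩⟩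
    · have hlim : Tendsto (id fun (l : ℕ) => (fun n => dif (s k - s (l + M)) n) : ℕ → ∀ _ : ℕ, ℝ)
          atTop (𝓝 fun n => ((s k).1.1 n - v n) - kp ((s k).1.2 - x) n) := by
        rw [tendsto_pi_nhds]
        intro n
        have h1 : ∀ l, dif (s k - s l) n = ((s k).1.1 n - (s l).1.1 n) -
            kp ((s k).1.2 - (s l).1.2) n := fun l => dif_apply _ n
        have h2 : Tendsto (fun l => ((s k).1.1 n - (s l).1.1 n) - kp ((s k).1.2 - (s l).1.2) n)
            atTop (𝓝 (((s k).1.1 n - v n) - kp ((s k).1.2 - x) n)) := by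
          refine ((hv n).const_sub _).sub ?_
          exact ((continuous_kp n).tendsto _).comp (hx.const_sub _)
        have h3 := h2.comp (tendsto_add_atTop_nat M)
        refine h3.congr fun l => ?_
        exact (h1 (l + M)).symm
      have hbd : ∀ l, ‖dif (s k - s (l + M))‖ ≤ ε := by
        intro l
        refine le_trans ?_ (hM k hk (l + M) (by omega)).le
        exact le_add_of_nonneg_right (norm_nonneg _)
      have hmem : Memℓp (fun n => ((s k).1.1 n - v n) - kp ((s k).1.2 - x) n) 2 := by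
        refine lp.memℓp_of_tendsto (F := fun l => dif (s k - s (l + M))) ?_ hlim
        rw [isBounded_iff_forall_norm_le]
        refine ⟨ε, ?_⟩
        rintro _ ⟨l, rfl⟩
        exact hbd l
      exact ⟨⟨_, hmem⟩, fun _ => rfl,
        lp.norm_le_of_tendsto (Eventually.of_forall hbd) (f := ⟨_, hmem⟩) hlim⟩
    · have h1 : Tendsto (fun l => ‖(s k).1.2 - (s l).1.2‖) atTop (𝓝 ‖(s k).1.2 - x‖) :=
        (hx.const_sub _).norm
      refine le_of_tendsto h1 ?_
      filter_upwards [eventually_ge_atTop M] with l hl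
      refine le_trans ?_ (hM k hk l hl).le
      exact le_add_of_nonneg_left (norm_nonneg (dif (s k - s l)))
  have hz : ((v, x) : (ℕ → ℝ) × L2) ∈ ZZ := by
    obtain ⟨M, hM⟩ := key 1 one_pos
    obtain ⟨⟨u, hu, _⟩, _⟩ := hM M le_rfl
    have h1 : s M - ⟨(s M).1 - (v, x), ⟨u, hu⟩⟩ ∈ (⊤ : Submodule ℝ ZZ) := trivial
    have h2 := (s M - ⟨(s M).1 - (v, x), ⟨u, hu⟩⟩ : ZZ).2
    have h3 : ((s M - ⟨(s M).1 - (v, x), ⟨u, hu⟩⟩ : ZZ) : (ℕ → ℝ) × L2) = (v, x) := by
      show (s M).1 - ((s M).1 - (v, x)) = (v, x)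
      exact sub_sub_cancel _ _
    rwa [h3] at h2
  refine ⟨⟨(v, x), hz⟩, fun ε hε => ?_⟩
  obtain ⟨M, hM⟩ := key (ε / 3) (by positivity)
  refine ⟨M, fun k hk => ?_⟩
  obtain ⟨h1, h2⟩ := hM k hk
  have h3 : NN (s k - ⟨(v, x), hz⟩) ≤ ε / 3 + ‖(s k).1.2 - x‖ := NN_le h1
  linarith

theorem isKaltonPeckSpace : IsKaltonPeckSpace NN ii where
  quasiNorm := ⟨NN_nonneg, NN_definite, NN_smul, 7, NN_quasi⟩
  isometric := NN_ii
  dense := NN_dense
  complete := NN_complete

/-- the standard inclusion -/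
noncomputable def jj : L2 →ₗ[ℝ] ZZ where
  toFun y := ⟨(⇑y, 0), ⟨y, fun n => by
    show y n = y n - kp 0 n
    rw [kp_zero]; simp⟩⟩
  map_add' y w := by
    apply Subtype.ext
    refine Prod.ext rfl ?_
    show (0 : L2) = 0 + 0
    rw [add_zero]
  map_smul' c y := by
    apply Subtype.ext
    refine Prod.ext rfl ?_
    show (0 : L2) = c • 0
    rw [smul_zero]

lemma NN_jj (y : L2) : NN (jj y) = ‖y‖ := by
  have h1 : dif (jj y) = y := dif_eq fun n => by
    show y n = y n - kp 0 n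
    rw [kp_zero]; simp
  have h2 : ‖(jj y).1.2‖ = 0 := norm_zero
  rw [NN, h1, h2, add_zero]

/-- the quotient map composed with the exchange of coordinates -/
noncomputable def qq : ZZ →ₗ[ℝ] L2 where
  toFun z := be z.1.2
  map_add' z w := map_add be z.1.2 w.1.2
  map_smul' c z := map_smul be c z.1.2

lemma be_inj {x : L2} (h : be x = 0) : x = 0 := by
  rw [← be_be x, h, map_zero]

theorem isExact : IsExactSequence NN jj qq where
  j_bounded := ⟨1, fun h => by rw [NN_jj, one_mul]⟩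
  j_below := ⟨1, fun h => by rw [NN_jj, one_mul]⟩
  q_bounded := ⟨1, fun z => by
    show ‖be z.1.2‖ ≤ 1 * NN z
    rw [norm_be, one_mul]
    exact le_add_of_nonneg_left (norm_nonneg _)⟩
  q_surjective := by
    intro y
    refine ⟨⟨(kp (be y), be y), ⟨0, fun n => ?_⟩⟩, be_be y⟩
    show (0 : ℝ) = kp (be y) n - kp (be y) n
    rw [sub_self]
  exact := by
    intro z
    constructor
    · intro h
      have h1 : z.1.2 = 0 := be_inj h
      refine ⟨dif z, ?_⟩
      apply Subtype.ext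
      refine Prod.ext ?_ h1.symm
      funext n
      show dif z n = z.1.1 n
      rw [dif_apply, h1, kp_zero]; simp
    · rintro ⟨h, rfl⟩
      show be (0 : L2) = 0
      exact map_zero be

/-- the operator `(v, x) ↦ (P v, P x)` -/
noncomputable def tt : ZZ →ₗ[ℝ] ZZ where
  toFun z := ⟨(fun n => if n % 2 = 0 then z.1.1 n else 0, Pe z.1.2), by
    obtain ⟨d, hd, _⟩ := kp_PA {n : ℕ | n % 2 = 0} z.1.2
    refine ⟨Pe (dif z) - d, fun n => ?_⟩
    rw [lp.coeFn_sub, Pi.sub_apply, hd]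
    show (if n % 2 = 0 then dif z n else 0) - (kp (Pe z.1.2) n - if n % 2 = 0 then kp z.1.2 n else 0)
      = (if n % 2 = 0 then z.1.1 n else 0) - kp (Pe z.1.2) n
    rw [dif_apply]
    split_ifs <;> ring⟩
  map_add' z w := by
    apply Subtype.ext
    refine Prod.ext ?_ (map_add Pe z.1.2 w.1.2)
    funext n
    show (if n % 2 = 0 then z.1.1 n + w.1.1 n else 0) =
      (if n % 2 = 0 then z.1.1 n else 0) + (if n % 2 = 0 then w.1.1 n else 0)
    split_ifs <;> simp
  map_smul' c z := by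
    apply Subtype.ext
    refine Prod.ext ?_ (map_smul Pe c z.1.2)
    funext n
    show (if n % 2 = 0 then c * z.1.1 n else 0) = c * (if n % 2 = 0 then z.1.1 n else 0)
    split_ifs <;> simp

theorem isCompatible : IsCompatible NN jj qq Pe Po := by
  refine ⟨tt, ⟨2, fun z => ?_⟩, fun h => ?_, fun z => ?_⟩
  · have hb : Bd (‖dif z‖ + ‖z.1.2‖) fun n => (tt z).1.1 n - kp (tt z).1.2 n := by
      have h2 : (fun n => (tt z).1.1 n - kp (tt z).1.2 n) =
          ⇑(Pe (dif z)) - (kp (PA {n : ℕ | n % 2 = 0} z.1.2) - fun n =>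
            if n ∈ {n : ℕ | n % 2 = 0} then kp z.1.2 n else 0) := by
        funext n
        simp only [Pi.sub_apply]
        show (if n % 2 = 0 then z.1.1 n else 0) - kp (Pe z.1.2) n =
          (if n % 2 = 0 then dif z n else 0) -
            (kp (Pe z.1.2) n - if n % 2 = 0 then kp z.1.2 n else 0)
        rw [dif_apply]
        split_ifs <;> ring
      rw [h2]
      exact Bd.sub ⟨Pe (dif z), fun _ => rfl, norm_PA_le _ _⟩ (kp_PA _ _)
    have h1 := NN_le hb
    have h2 : ‖(tt z).1.2‖ ≤ ‖z.1.2‖ := norm_PA_le _ _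
    unfold NN at h1 ⊢
    linarith [norm_nonneg (dif z), norm_nonneg z.1.2]
  · apply Subtype.ext
    refine Prod.ext ?_ ?_
    · funext n; rfl
    · exact map_zero Pe
  · exact be_Pe z.1.2

end

/-- **Answer to Q1 (disproof).**  On the Kalton–Peck space `Z₂` there are an exact sequence
`0 → H → Z₂ → H → 0` with `H = ℓ²` and a compatible pair `(T, U)` such that `T - U` is not
compact. -/
theorem result : ∃ (Z : Type) (_ : AddCommGroup Z) (_ : Module ℝ Z) (N : Z → ℝ)
    (i : Pairs →ₗ[ℝ] Z), IsKaltonPeckSpace N i ∧ HasNoncompactPair L2 N :=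
  ⟨ZZ, inferInstance, inferInstance, NN, ii, isKaltonPeckSpace, jj, qq,
    Pool.Agent.R283.KP.Pe, Pool.Agent.R283.KP.Po, isExact, isCompatible,
    Pool.Agent.R283.KP.not_compact⟩

end Pool.Agent.Results.MP_23ded2_an.NoncompactDifference
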